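import Mathlib

open MeasureTheory ProbabilityTheory Set
open scoped ENNReal

namespace Pool.Agent.Results.MP_e518dc_lc.DisjointThick

universe u v w

/-- A labelled Markov process with label set `L` and measurable state space `S`: for every label
a Markov kernel with values in subprobability measures. -/
structure LMP (L : Type u) (S : Type v) [MeasurableSpace S] where
  /-- the transition kernels -/
  tau : L → Kernel S S
  /-- the measures are subprobability measures -/
  le_one : ∀ a s, tau a s Set.univ ≤ 1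

/-- The direct sum of two labelled Markov processes on the disjoint union of the state spaces,
with the sum sigma-algebra. -/
noncomputable def LMP.sum {L : Type u} {S : Type v} {S' : Type w} [MeasurableSpace S]
    [MeasurableSpace S'] (M : LMP L S) (M' : LMP L S') : LMP L (S ⊕ S') where
  tau a :=
    { toFun := Sum.elim (fun s => (M.tau a s).map Sum.inl) (fun s' => (M'.tau a s').map Sum.inr)
      measurable' := by
        refine Measurable.sumElim ?_ ?_
        · exact (Measure.measurable_map _ measurable_inl).comp (M.tau a).measurable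
        · exact (Measure.measurable_map _ measurable_inr).comp (M'.tau a).measurable }
  le_one a x := by
    rcases x with s | s'
    · change ((M.tau a s).map Sum.inl) univ ≤ 1
      rw [Measure.map_apply measurable_inl MeasurableSet.univ]
      exact M.le_one a s
    · change ((M'.tau a s').map Sum.inr) univ ≤ 1
      rw [Measure.map_apply measurable_inr MeasurableSet.univ]
      exact M'.le_one a s'

/-- `A` is closed under the relation `R`: every point related by `R`, in either direction, to a
point of `A` lies in `A`. -/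
def RelClosed {X : Type u} (R : X → X → Prop) (A : Set X) : Prop :=
  ∀ x ∈ A, ∀ y, R x y ∨ R y x → y ∈ A

/-- `R` is a sum-bisimulation between `M` and `M'`: an equivalence relation on the disjoint union
of the state spaces such that related points of different summands give the same mass to every
`R`-closed measurable set. -/
structure IsSumBisim {L : Type u} {S : Type v} {S' : Type w} [MeasurableSpace S]
    [MeasurableSpace S'] (M : LMP L S) (M' : LMP L S') (R : S ⊕ S' → S ⊕ S' → Prop) : Prop where
  equivalence : Equivalence R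
  transfer : ∀ x y : S ⊕ S', R x y → x.isLeft ≠ y.isLeft → ∀ (a : L) (A : Set (S ⊕ S')),
    MeasurableSet A → RelClosed R A → (M.sum M').tau a x A = (M.sum M').tau a y A

/-- Formulas of the logic: truth, conjunction, and the modalities `⟨a⟩_{≥ q}` for labels `a` and
rationals `q` in `[0,1]`. -/
inductive Formula (L : Type u) : Type u
  | top : Formula L
  | and : Formula L → Formula L → Formula L
  | dia : L → {q : ℚ // 0 ≤ q ∧ q ≤ 1} → Formula L → Formula L

/-- The set of states of `M` satisfying a formula. -/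
noncomputable def Formula.sem {L : Type u} {S : Type v} [MeasurableSpace S] (M : LMP L S) :
    Formula L → Set S
  | Formula.top => Set.univ
  | Formula.and φ ψ => Formula.sem M φ ∩ Formula.sem M ψ
  | Formula.dia a q φ => {s | ENNReal.ofReal ((q : ℚ) : ℝ) ≤ M.tau a s (Formula.sem M φ)}

/-- Two states satisfy the same formulas. -/
def LogEquiv {L : Type u} {S : Type v} {S' : Type w} [MeasurableSpace S]
    [MeasurableSpace S'] (M : LMP L S) (M' : LMP L S') (s : S) (s' : S') : Prop :=
  ∀ φ : Formula L, s ∈ φ.sem M ↔ s' ∈ φ.sem M'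

/-! ### Thick subsets and traces of measures -/

section Trace

variable {X : Type u} [MeasurableSpace X]

/-- Every measurable set disjoint from `T` is null. -/
def Thick (μ : Measure X) (T : Set X) : Prop := ∀ B, MeasurableSet B → B ∩ T = ∅ → μ B = 0

lemma comap_le_caratheodory (μ : Measure X) (T : Set X) :
    (inferInstance : MeasurableSpace T) ≤
      (OuterMeasure.comap (Subtype.val : T → X) μ.toOuterMeasure).caratheodory := by
  rintro s ⟨B, hB, rfl⟩
  intro t
  simp only [OuterMeasure.comap_apply]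
  have h1 : (Subtype.val : T → X) '' (t ∩ Subtype.val ⁻¹' B) = (Subtype.val '' t) ∩ B := by
    ext x; constructor
    · rintro ⟨y, ⟨hy1, hy2⟩, rfl⟩; exact ⟨⟨y, hy1, rfl⟩, hy2⟩
    · rintro ⟨⟨y, hy1, rfl⟩, hy2⟩; exact ⟨y, ⟨hy1, hy2⟩, rfl⟩
  have h2 : (Subtype.val : T → X) '' (t \ Subtype.val ⁻¹' B) = (Subtype.val '' t) \ B := by
    ext x; constructor
    · rintro ⟨y, ⟨hy1, hy2⟩, rfl⟩; exact ⟨⟨y, hy1, rfl⟩, hy2⟩
    · rintro ⟨⟨y, hy1, rfl⟩, hy2⟩; exact ⟨y, ⟨hy1, hy2⟩, rfl⟩
  rw [h1, h2]
  exact (measure_inter_add_sdiff (μ := μ) (Subtype.val '' t) hB).symm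

/-- The trace of a measure on an arbitrary subset. -/
noncomputable def trace (μ : Measure X) (T : Set X) : Measure T :=
  (OuterMeasure.comap (Subtype.val : T → X) μ.toOuterMeasure).toMeasure
    (comap_le_caratheodory μ T)

lemma trace_preimage {μ : Measure X} {T : Set X} (hT : Thick μ T) {B : Set X}
    (hB : MeasurableSet B) : trace μ T (Subtype.val ⁻¹' B) = μ B := by
  unfold trace
  rw [toMeasure_apply _ _ (measurable_subtype_coe hB)]
  rw [OuterMeasure.comap_apply]
  rw [Subtype.image_preimage_coe]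
  change μ (T ∩ B) = μ B
  apply le_antisymm (measure_mono inter_subset_right)
  obtain ⟨C, hC1, hC2, hC3⟩ := exists_measurable_superset μ (T ∩ B)
  have h3 : μ (B \ C) = 0 := by
    apply hT _ (hB.diff hC2)
    ext x
    simp only [mem_inter_iff, mem_sdiff, mem_empty_iff_false, iff_false, not_and]
    rintro ⟨h1, h2⟩ h3
    exact h2 (hC1 ⟨h3, h1⟩)
  calc μ B ≤ μ (C ∪ (B \ C)) := measure_mono (by intro x hx; by_cases h : x ∈ C <;> simp [h, hx])
    _ ≤ μ C + μ (B \ C) := measure_union_le _ _
    _ = μ (T ∩ B) := by rw [h3, hC3, add_zero]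

end Trace

/-- The trace of a labelled Markov process on a subset that is thick for all its transitions. -/
noncomputable def LMP.restrict {L : Type u} {X : Type v} [MeasurableSpace X] (M : LMP L X)
    (T : Set X) (hT : ∀ a, ∀ x ∈ T, Thick (M.tau a x) T) : LMP L T where
  tau a :=
    { toFun := fun x => trace (M.tau a x) T
      measurable' := by
        refine Measure.measurable_of_measurable_coe _ ?_
        rintro s ⟨B, hB, rfl⟩
        have : (fun x : T => trace (M.tau a x) T (Subtype.val ⁻¹' B)) =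
            fun x : T => M.tau a x B := by
          funext x
          exact trace_preimage (hT a x x.2) hB
        rw [this]
        exact (Kernel.measurable_coe _ hB).comp measurable_subtype_coe }
  le_one a x := by
    change trace (M.tau a x) T univ ≤ 1
    have := trace_preimage (hT a x x.2) (B := univ) MeasurableSet.univ
    rw [preimage_univ] at this
    rw [this]
    exact M.le_one a x

lemma sem_measurable {L : Type u} {X : Type v} [MeasurableSpace X] (M : LMP L X)
    (φ : Formula L) : MeasurableSet (φ.sem M) := by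
  induction φ with
  | top => exact MeasurableSet.univ
  | and φ ψ h1 h2 => exact h1.inter h2
  | dia a q φ h => exact measurableSet_le measurable_const (Kernel.measurable_coe _ h)

lemma sem_restrict {L : Type u} {X : Type v} [MeasurableSpace X] (M : LMP L X)
    (T : Set X) (hT : ∀ a, ∀ x ∈ T, Thick (M.tau a x) T) (φ : Formula L) :
    φ.sem (M.restrict T hT) = Subtype.val ⁻¹' (φ.sem M) := by
  induction φ with
  | top => rfl
  | and φ ψ h1 h2 =>
    simp only [Formula.sem, h1, h2]
    rfl
  | dia a q φ h =>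
    ext x
    simp only [Formula.sem, h]
    change _ ≤ trace (M.tau a x) T _ ↔ _
    rw [trace_preimage (hT a x x.2) (sem_measurable M φ)]
    rfl

/-! ### A thick set of reals with thick complement -/

lemma exists_functional : ∃ f : ℝ →ₗ[ℚ] ℚ, f 1 = 0 ∧ f (Real.sqrt 2) = 1 := by
  have h : Real.sqrt 2 ∉ (Submodule.span ℚ {(1 : ℝ)}) := by
    intro hmem
    rw [Submodule.mem_span_singleton] at hmem
    obtain ⟨q, hq⟩ := hmem
    apply irrational_sqrt_two
    refine ⟨q, ?_⟩
    rw [← hq, Rat.smul_def, mul_one]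
  obtain ⟨f, hf1, hf2⟩ := Submodule.exists_le_ker_of_notMem h
  refine ⟨(f (Real.sqrt 2))⁻¹ • f, ?_, ?_⟩
  · have : (1 : ℝ) ∈ LinearMap.ker f := hf2 (Submodule.mem_span_singleton_self 1)
    rw [LinearMap.mem_ker] at this
    simp [this]
  · simp [hf1]

/-- A set of reals defined from a discontinuous additive functional. -/
def parity (f : ℝ →ₗ[ℚ] ℚ) : Set ℝ := {x | Even ⌊f x⌋}

lemma parity_add {f : ℝ →ₗ[ℚ] ℚ} {v : ℝ} (hv : f v = 1) (x : ℝ) :
    x + v ∈ parity f ↔ x ∉ parity f := by
  simp only [parity, mem_ofPred_eq, map_add, hv, Int.floor_add_one]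
  exact Int.even_add_one

lemma exists_small {f : ℝ →ₗ[ℚ] ℚ} (h1 : f 1 = 0) (h2 : f (Real.sqrt 2) = 1) {U : Set ℝ}
    (hU : U ∈ nhds (0 : ℝ)) : ∃ v ∈ U, f v = 1 := by
  obtain ⟨ε, hε, hb⟩ := Metric.mem_nhds_iff.1 hU
  obtain ⟨q, hq1, hq2⟩ := exists_rat_btwn (show Real.sqrt 2 - ε < Real.sqrt 2 by linarith)
  refine ⟨Real.sqrt 2 - q, hb ?_, ?_⟩
  · rw [mem_ball_zero_iff, Real.norm_eq_abs, abs_lt]
    constructor <;> linarith
  · have : f ((q : ℝ)) = 0 := by
      have h3 : ((q : ℝ)) = q • (1 : ℝ) := by rw [Rat.smul_def, mul_one]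
      rw [h3, map_smul, h1, smul_zero]
    rw [map_sub, this, h2, sub_zero]

lemma thick_of_flip {D : Set ℝ}
    (hD : ∀ U ∈ nhds (0 : ℝ), ∃ v ∈ U, ∀ x, x ∉ D → x + v ∈ D) : Thick volume D := by
  intro B hB hBD
  by_contra hpos
  have hpos' : 0 < volume B := pos_iff_ne_zero.2 hpos
  have hS := Measure.sub_mem_nhds_zero_of_addHaar_pos volume B hB hpos'
  obtain ⟨v, hv, hflip⟩ := hD _ hS
  obtain ⟨b, hb, b', hb', hbb⟩ := hv
  have hb'D : b' ∉ D := fun h => by
    have : b' ∈ B ∩ D := ⟨hb', h⟩
    rw [hBD] at this; exact this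
  have hbD : b ∉ D := fun h => by
    have : b ∈ B ∩ D := ⟨hb, h⟩
    rw [hBD] at this; exact this
  apply hbD
  have := hflip b' hb'D
  have h4 : b' + v = b := by simp only at hbb; linarith
  rwa [h4] at this

lemma exists_thick : ∃ D : Set ℝ, Thick volume D ∧ Thick volume Dᶜ := by
  obtain ⟨f, h1, h2⟩ := exists_functional
  refine ⟨parity f, thick_of_flip ?_, thick_of_flip ?_⟩
  · intro U hU
    obtain ⟨v, hv, hfv⟩ := exists_small h1 h2 hU
    exact ⟨v, hv, fun x hx => (parity_add hfv x).2 hx⟩
  · intro U hU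
    obtain ⟨v, hv, hfv⟩ := exists_small h1 h2 hU
    refine ⟨v, hv, fun x hx => ?_⟩
    intro h
    exact (parity_add hfv x).1 h (by simpa using hx)

/-! ### The process on the reals -/

open Classical in
/-- The transition measure: Lebesgue measure on the open unit interval at the point `1`, and
the point mass `x` at `x` for `0 < x < 1`. -/
noncomputable def base (x : ℝ) : Measure ℝ :=
  if x = 1 then volume.restrict (Ioo 0 1)
  else if x ∈ Ioo (0 : ℝ) 1 then ENNReal.ofReal x • Measure.dirac x else 0

lemma base_one : base 1 = volume.restrict (Ioo 0 1) := by simp [base]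

lemma base_Ioo {x : ℝ} (hx : x ∈ Ioo (0 : ℝ) 1) : base x = ENNReal.ofReal x • Measure.dirac x := by
  unfold base
  rw [if_neg (ne_of_lt hx.2), if_pos hx]

lemma base_univ_one : base 1 univ = 1 := by
  rw [base_one]; simp

lemma base_univ_Ioo {x : ℝ} (hx : x ∈ Ioo (0 : ℝ) 1) : base x univ = ENNReal.ofReal x := by
  rw [base_Ioo hx]; simp

lemma base_le_one (x : ℝ) : base x univ ≤ 1 := by
  by_cases h : x = 1
  · rw [h, base_univ_one]
  · by_cases h' : x ∈ Ioo (0 : ℝ) 1
    · rw [base_univ_Ioo h']
      exact ENNReal.ofReal_le_one.2 h'.2.le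
    · unfold base
      rw [if_neg h, if_neg h']
      simp

lemma base_measurable : Measurable base := by
  unfold base
  refine Measurable.ite (measurableSet_singleton 1) measurable_const ?_
  refine Measurable.ite measurableSet_Ioo ?_ measurable_const
  refine Measure.measurable_of_measurable_coe _ ?_
  intro B hB
  simp only [Measure.smul_apply, smul_eq_mul]
  refine (ENNReal.measurable_ofReal).mul ?_
  exact (Measure.measurable_coe hB).comp Measure.measurable_dirac

/-- The process on the reals in which all labels act in the same way. -/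
noncomputable def baseLMP (L : Type u) : LMP L ℝ where
  tau _ := { toFun := base, measurable' := base_measurable }
  le_one _ x := base_le_one x

lemma baseLMP_tau (L : Type u) (a : L) (x : ℝ) : (baseLMP L).tau a x = base x := rfl

lemma thick_base {D : Set ℝ} (hD : Thick volume D) :
    ∀ x ∈ (D ∩ Ioo (0 : ℝ) 1) ∪ {1}, Thick (base x) ((D ∩ Ioo (0 : ℝ) 1) ∪ {1}) := by
  intro x hx B hB hBT
  rcases hx with hx | hx
  · rw [base_Ioo hx.2]
    have hxB : x ∉ B := fun h => by
      have : x ∈ B ∩ ((D ∩ Ioo (0 : ℝ) 1) ∪ {1}) := ⟨h, Or.inl hx⟩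
      rw [hBT] at this; exact this
    rw [Measure.smul_apply, Measure.dirac_apply' _ hB, indicator_of_notMem hxB]
    simp
  · rw [mem_singleton_iff] at hx
    rw [hx, base_one, Measure.restrict_apply hB]
    apply hD _ (hB.inter measurableSet_Ioo)
    ext y
    simp only [mem_inter_iff, mem_empty_iff_false, iff_false, not_and]
    rintro ⟨h1, h2⟩ h3
    have : y ∈ B ∩ ((D ∩ Ioo (0 : ℝ) 1) ∪ {1}) := ⟨h1, Or.inl ⟨h3, h2⟩⟩
    rw [hBT] at this; exact this

/-- The process living on the part of `D` in the open unit interval together with the point `1`. -/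
noncomputable def proc (L : Type u) {D : Set ℝ} (hD : Thick volume D) :
    LMP L ((D ∩ Ioo (0 : ℝ) 1) ∪ {1} : Set ℝ) :=
  (baseLMP L).restrict _ (fun _ => thick_base hD)

lemma proc_sem (L : Type u) {D : Set ℝ} (hD : Thick volume D) (φ : Formula L) :
    φ.sem (proc L hD) = Subtype.val ⁻¹' (φ.sem (baseLMP L)) :=
  sem_restrict (baseLMP L) _ (fun _ => thick_base hD) φ

lemma proc_preimage (L : Type u) {D : Set ℝ} (hD : Thick volume D) (a : L)
    (x : ((D ∩ Ioo (0 : ℝ) 1) ∪ {1} : Set ℝ)) {B : Set ℝ} (hB : MeasurableSet B) :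
    (proc L hD).tau a x (Subtype.val ⁻¹' B) = base x B :=
  trace_preimage (thick_base hD x x.2) hB

lemma proc_univ (L : Type u) {D : Set ℝ} (hD : Thick volume D) (a : L)
    (x : ((D ∩ Ioo (0 : ℝ) 1) ∪ {1} : Set ℝ)) : (proc L hD).tau a x univ = base x univ := by
  have := proc_preimage L hD a x (B := univ) MeasurableSet.univ
  rwa [preimage_univ] at this

lemma sum_inl {L : Type u} {S : Type v} {S' : Type w} [MeasurableSpace S]
    [MeasurableSpace S'] (M : LMP L S) (M' : LMP L S') (a : L) (s : S) {A : Set (S ⊕ S')}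
    (hA : MeasurableSet A) : (M.sum M').tau a (Sum.inl s) A = M.tau a s (Sum.inl ⁻¹' A) := by
  change ((M.tau a s).map Sum.inl) A = _
  rw [Measure.map_apply measurable_inl hA]

lemma sum_inr {L : Type u} {S : Type v} {S' : Type w} [MeasurableSpace S]
    [MeasurableSpace S'] (M : LMP L S) (M' : LMP L S') (a : L) (s' : S') {A : Set (S ⊕ S')}
    (hA : MeasurableSet A) : (M.sum M').tau a (Sum.inr s') A = M'.tau a s' (Sum.inr ⁻¹' A) := by
  change ((M'.tau a s').map Sum.inr) A = _
  rw [Measure.map_apply measurable_inr hA]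

/-- For every nonempty countable label set there are labelled Markov processes on two sets of
reals contained in `(0,1]`, with the trace Borel sigma-algebras, and logically equivalent states
that no sum-bisimulation relates. -/
theorem result (L : Type u) [Countable L] [Nonempty L] :
    ∃ (T T' : Set ℝ) (M : LMP L T) (M' : LMP L T') (s : T) (s' : T'),
      T ⊆ Ioc 0 1 ∧ T' ⊆ Ioc 0 1 ∧ LogEquiv M M' s s' ∧
      ¬ ∃ R : T ⊕ T' → T ⊕ T' → Prop, IsSumBisim M M' R ∧ R (Sum.inl s) (Sum.inr s') := by
  obtain ⟨D, hD, hDc⟩ := exists_thick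
  refine ⟨_, _, proc L hD, proc L hDc, ⟨1, Or.inr rfl⟩, ⟨1, Or.inr rfl⟩, ?_, ?_, ?_, ?_⟩
  · rintro x (hx | hx)
    · exact ⟨hx.2.1, hx.2.2.le⟩
    · rw [mem_singleton_iff] at hx; subst hx; simp
  · rintro x (hx | hx)
    · exact ⟨hx.2.1, hx.2.2.le⟩
    · rw [mem_singleton_iff] at hx; subst hx; simp
  · intro φ
    rw [proc_sem, proc_sem]
    rfl
  · rintro ⟨R, hR, hss⟩
    obtain ⟨a⟩ := ‹Nonempty L›
    have cross : ∀ (x : ((D ∩ Ioo (0 : ℝ) 1) ∪ {1} : Set ℝ))
        (y : ((Dᶜ ∩ Ioo (0 : ℝ) 1) ∪ {1} : Set ℝ)), R (Sum.inl x) (Sum.inr y) → (x : ℝ) = 1 := by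
      intro x y hxy
      have h := hR.transfer _ _ hxy (by simp) a univ MeasurableSet.univ
        (fun _ _ _ _ => mem_univ _)
      rw [sum_inl _ _ _ _ MeasurableSet.univ, sum_inr _ _ _ _ MeasurableSet.univ, preimage_univ,
        preimage_univ, proc_univ, proc_univ] at h
      rcases x.2 with hx | hx
      · rcases y.2 with hy | hy
        · rw [base_univ_Ioo hx.2, base_univ_Ioo hy.2] at h
          have h5 : (x : ℝ) = y := by
            have := congrArg ENNReal.toReal h
            rwa [ENNReal.toReal_ofReal hx.2.1.le, ENNReal.toReal_ofReal hy.2.1.le] at this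
          exact absurd hx.1 (by rw [h5]; exact hy.1)
        · rw [mem_singleton_iff] at hy
          rw [hy, base_univ_Ioo hx.2, base_univ_one] at h
          have := congrArg ENNReal.toReal h
          rw [ENNReal.toReal_ofReal hx.2.1.le] at this
          simpa using this
      · exact hx
    set s : ((D ∩ Ioo (0 : ℝ) 1) ∪ {1} : Set ℝ) := ⟨1, Or.inr rfl⟩ with hs
    set s' : ((Dᶜ ∩ Ioo (0 : ℝ) 1) ∪ {1} : Set ℝ) := ⟨1, Or.inr rfl⟩ with hs'
    let A : Set (((D ∩ Ioo (0 : ℝ) 1) ∪ {1} : Set ℝ) ⊕ ((Dᶜ ∩ Ioo (0 : ℝ) 1) ∪ {1} : Set ℝ)) :=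
      Sum.inl '' (Subtype.val ⁻¹' ({1}ᶜ : Set ℝ))
    have hAm : MeasurableSet A :=
      (measurable_subtype_coe (measurableSet_singleton (1 : ℝ)).compl).inl_image
    have hAc : RelClosed R A := by
      rintro z ⟨x, hx, rfl⟩ w hw
      have hw' : R (Sum.inl x) w := by
        rcases hw with h | h
        · exact h
        · exact hR.equivalence.symm h
      rcases w with x' | y
      · refine ⟨x', ?_, rfl⟩
        intro hx'
        apply hx
        have hxs : x' = s := Subtype.ext hx'
        rw [hxs] at hw'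
        exact cross _ _ (hR.equivalence.trans hw' hss)
      · exact absurd (cross _ _ hw') hx
    have h := hR.transfer _ _ hss (by simp) a A hAm hAc
    rw [sum_inl _ _ _ _ hAm, sum_inr _ _ _ _ hAm] at h
    have h6 : (Sum.inl ⁻¹' A : Set ((D ∩ Ioo (0 : ℝ) 1) ∪ {1} : Set ℝ)) =
        Subtype.val ⁻¹' ({1}ᶜ : Set ℝ) := preimage_image_eq _ Sum.inl_injective
    have h7 : (Sum.inr ⁻¹' A : Set ((Dᶜ ∩ Ioo (0 : ℝ) 1) ∪ {1} : Set ℝ)) = ∅ := by
      ext y
      simp [A]
    rw [h6, h7, proc_preimage L hD a s (measurableSet_singleton (1 : ℝ)).compl, measure_empty]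
      at h
    have h8 : base ((s : ℝ)) ({1}ᶜ) = 1 := by
      change base 1 ({1}ᶜ) = 1
      rw [base_one, Measure.restrict_apply (measurableSet_singleton (1 : ℝ)).compl]
      have : ({1}ᶜ ∩ Ioo (0 : ℝ) 1 : Set ℝ) = Ioo 0 1 := by
        ext x
        simp only [mem_inter_iff, mem_compl_iff, mem_singleton_iff, mem_Ioo, and_iff_right_iff_imp]
        rintro ⟨_, h⟩
        exact ne_of_lt h
      rw [this]
      simp
    rw [h8] at h
    exact one_ne_zero h

end Pool.Agent.Results.MP_e518dc_lc.DisjointThick
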